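import Pool.Agent.H40.Steiner

set_option autoImplicit false

namespace Pool.Agent.Results.MP_19fe04_lc.TwoAndThree

open Pool.Agent.H40.Steiner

/-- A Steiner `k`-system on a countably infinite set with `k`-transitive automorphism group that
preserves a Steiner `l`-system with `l ≠ k`. -/
theorem result : ∃ (k l : ℕ) (Ω : Type) (B C : Set (Set Ω)),
    2 ≤ k ∧ 2 ≤ l ∧ k ≠ l ∧ Countable Ω ∧ Infinite Ω ∧
    IsSteiner k B ∧ AutTransitive k B ∧ IsSteiner l C ∧
    ∀ g : Equiv.Perm Ω, Preserves g B → Preserves g C := by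
  haveI : Fact (Nat.Prime 2) := ⟨Nat.prime_two⟩
  haveI := countable_K
  exact ⟨2, 3, AlgebraicClosure (ZMod 2) × AlgebraicClosure (ZMod 2), Lines _, Ext (Lines _),
    le_rfl, by norm_num, by norm_num, inferInstance, inferInstance, steiner2, trans2, steiner3,
    fun g h => preserves_ext g h⟩

end Pool.Agent.Results.MP_19fe04_lc.TwoAndThree
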